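import Pool.Agent.H870R2.LS.KMain
import Pool.Agent.H870R2.LS.KUp

set_option autoImplicit false

/-! # Local symmetry separates arithmetic circuits from algebraic branching programs

The tree evaluation polynomial `treePoly K h q` is the sum, over all labellings of the nodes of the
binary tree of height `h` by elements of `ZMod q` (the nodes are `1, …, 2 ^ (h + 1) - 1`, the
children of `v` are `2 v` and `2 v + 1`), of the product of the variables of the labels of the leaves,
of the rules (from the labels of the children of a node to its label) at the inner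
nodes, and of the rule from the label of the root to the target.

(1) Let `K` be a nonzero commutative semiring, `q ≥ 5` odd, `R ≤ h`. An algebraic branching program
over `K` (acyclic, arcs labelled by affine forms) whose polynomial agrees with `treePoly K h q` at
all points with coordinates `0` and `1`, and which is symmetric under the even permutations of the
labels of each node `v < 2 ^ (R + 1)`, has at least `q ^ m` vertices whenever `m ≥ 1` and
`4 m ≤ R + 1`.
(2) `treePoly K h q` is computed by an arithmetic circuit (sums and products) with at most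
`2 ^ (h + 3) * q ^ 3` gates that is symmetric under all permutations of the labels of each node. -/

namespace Pool.Agent.Results.MP_f18ce0_lc.LocalSymmetryABP

open Pool.Agent.H526R2.LS Pool.Agent.H870R2.LS

/-- All gates which do not read an input compute the sum or the product of their inputs. -/
def Arithmetic {I R O Gt : Type} [CommSemiring R] (N : Net I R O Gt) : Prop :=
  ∀ g, N.inp g = none → (∀ m, N.F g m = m.sum) ∨ (∀ m, N.F g m = m.prod)

theorem result :
    (∀ (K : Type) [CommSemiring K] [Nontrivial K] (h q R : ℕ) [NeZero q], 5 ≤ q → Odd q → R ≤ h →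
      ∀ (Q : Type) [Fintype Q] [DecidableEq Q] (B : ABP (Inp (EEl h q)) K Q),
        (∀ x : Inp (EEl h q) → K, (∀ i, x i = 0 ∨ x i = 1) →
          MvPolynomial.eval x B.poly = MvPolynomial.eval x (treePoly K h q)) →
        (∀ v : Fin (2 ^ (h + 1)), v.val < 2 ^ (R + 1) → B.SymOn (eblk (q := q) v)) →
        ∀ m : ℕ, 1 ≤ m → 4 * m ≤ R + 1 → q ^ m ≤ Fintype.card Q) ∧
    (∀ (K : Type) [CommSemiring K] (h q : ℕ) [NeZero q],
      ∃ (Gt : Type) (_ : Fintype Gt)
        (N : Net (Inp (EEl h q)) (MvPolynomial (Inp (EEl h q)) K) Unit Gt),
        Arithmetic N ∧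
        N.val MvPolynomial.X (N.out ()) = treePoly K h q ∧
        Fintype.card Gt ≤ 2 ^ (h + 3) * q ^ 3 ∧
        (∀ (v : Fin (2 ^ (h + 1))) (a : Equiv.Perm (ZMod q)) (p : Equiv.Perm (EEl h q)),
          (∀ c, p (eblk v c) = eblk v (a c)) → (∀ u, u ∉ Set.range (eblk v) → p u = u) →
          ∃ φ, N.IsAut (inpPerm p) 1 φ)) := by
  refine ⟨?_, ?_⟩
  · intro K _ _ h q R _ hq hodd hR Q _ _ B hB hs m hm h4
    refine abp_lower hq hodd hR B (fun κ τ => hB _ ?_) hs m hm h4
    intro i
    unfold pt
    split_ifs
    · exact Or.inr rfl
    · exact Or.inl rfl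
  · intro K _ h q _
    refine ⟨KUp.Gk h q, inferInstance, KUp.ck K h q, ?_, KUp.val_out, KUp.card_Gk h q,
      fun v a p h1 h2 => KUp.symm v a p h1 h2⟩
    rintro (⟨v, a⟩ | t | t | a | a | a) hg
    · exact Or.inl fun m => rfl
    · exact Or.inl fun m => rfl
    · exact Or.inr fun m => rfl
    · exact Or.inl fun m => rfl
    · exact Or.inr fun m => rfl
    · exact Or.inl fun m => rfl

end Pool.Agent.Results.MP_f18ce0_lc.LocalSymmetryABP
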