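import Mathlib
import Pool.Agent.H691R2.Skew.Last

set_option autoImplicit false

/-!
A family of polynomials with small monotone circuits for which every weakly skew circuit has
superpolynomial size or exponentially large cancellations.
-/

namespace Pool.Agent.Results.MP_f18ce0_lc.SkewCancellation

open Pool.Agent.H567.Nec Pool.Agent.H691R2.Skew
open scoped NNReal

universe u

theorem aux (ε κ : ℝ) (a c₀ c n : ℕ) (hκ0 : 0 ≤ κ) (hκ : 1 - ε ≤ κ) (ha1 : 1 ≤ a)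
    (hasym : ∀ c ≥ c₀, ∀ x : ℝ, 0 ≤ x → x ≤ (2 : ℝ) ^ (κ * (6 * (a + 1) * (c + 1))) →
      (6 * ((6 * (a + 1) * c : ℕ) : ℝ)) * (2 : ℝ) ^ x < (2 : ℝ) ^ (tt a c / (6 * (a + 1) * c)))
    (hn1 : 1 ≤ n) (hcn : c₀ ≤ c) (hle : 2 ^ (6 * (a + 1) * c) ≤ n)
    (hlt : n < 2 ^ (6 * (a + 1) * (c + 1))) (hc5 : 5 ≤ c) (K : Type u) [Field K]
    (w : AbsoluteValue K ℝ) :
        Fintype.card (Var (tt a c) (th c) (tm a c)) ≤ n ^ 9 ∧
        (treePoly K (tt a c) (th c) (tm a c)).totalDegree ≤ n ∧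
        (∀ μ, (treePoly K (tt a c) (th c) (tm a c)).coeff μ = 0 ∨
          (treePoly K (tt a c) (th c) (tm a c)).coeff μ = 1) ∧
        (∃ (Φ : Circuit K (Var (tt a c) (th c) (tm a c))) (o : Fin Φ.N),
          Φ.value o = treePoly K (tt a c) (th c) (tm a c) ∧ Φ.N ≤ n ^ 9 ∧
          (∀ i c, Φ.node i = .const c → c = 0 ∨ c = 1) ∧
          cost w Φ o = (treePoly K (tt a c) (th c) (tm a c)).support.card) ∧
        (∀ Φ : Circuit K (Var (tt a c) (th c) (tm a c)), Φ.WeaklySkew → ∀ o : Fin Φ.N,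
          (∀ μ ∈ (treePoly K (tt a c) (th c) (tm a c)).support, 1 ≤ w ((Φ.value o).coeff μ)) →
          (Φ.N : ℝ) ≤ (n : ℝ) ^ ((1 / (36 * ((a : ℝ) + 1) ^ 2)) * Real.log n) →
          (2 : ℝ) ^ ((n : ℝ) ^ (1 - ε)) * (treePoly K (tt a c) (th c) (tm a c)).support.card <
            cost w Φ o) := by
  have hh : 1 ≤ th c := by rw [th]; omega
  have hU : tt a c * 2 ^ th c = 2 ^ (6 * (a + 1) * c) := by
    rw [tt, th, ← pow_add]; congr 1; ring
  have hn9 : 2 ^ (54 * (a + 1) * c) ≤ n ^ 9 := by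
    calc 2 ^ (54 * (a + 1) * c) = (2 ^ (6 * (a + 1) * c)) ^ 9 := by
          rw [← pow_mul]; congr 1; ring
      _ ≤ n ^ 9 := Nat.pow_le_pow_left hle 9
  have hac : 5 ≤ a * c := by nlinarith
  refine ⟨?_, ?_, ?_, ?_, ?_⟩
  · refine le_trans ?_ hn9
    have h1 : Fintype.card (Var (tt a c) (th c) (tm a c)) =
        tt a c * (2 ^ th c * (tm a c * tm a c)) := by
      simp only [Var, Fintype.card_prod, Fintype.card_fin]
    rw [h1, ← mul_assoc, hU, tm, ← pow_add, ← pow_add]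
    apply Nat.pow_le_pow_right (by norm_num)
    nlinarith
  · refine le_trans (totalDegree_treePoly K hh) (le_trans ?_ hle)
    rw [← hU]
    exact Nat.mul_le_mul_left _ (Nat.sub_le _ _)
  · exact fun μ => coeff_treePoly_zero_or_one K hh μ
  · let inst : NormedField K := ofAbs w
    obtain ⟨Φ, o, h1, h2, h3, h4⟩ := exists_monotone_circuit K (tt a c) (th c) (tm a c)
    refine ⟨Φ, o, h1, ?_, h4, ?_⟩
    · refine le_trans h3 (le_trans ?_ hn9)
      have h5 : 8 * tt a c * 2 ^ th c * (tm a c + 1) ^ 2 + 8 =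
          8 * (tt a c * 2 ^ th c) * (tm a c + 1) ^ 2 + 8 := by ring
      rw [h5, hU]
      have h6 : tm a c + 1 ≤ 2 ^ (18 * a * c + 3) := by
        rw [tm, pow_succ 2 (18 * a * c + 2)]
        have := Nat.one_le_two_pow (n := 18 * a * c + 2)
        omega
      have h7 : 8 * 2 ^ (6 * (a + 1) * c) * (tm a c + 1) ^ 2 ≤
          2 ^ (3 + 6 * (a + 1) * c + 2 * (18 * a * c + 3)) := by
        calc 8 * 2 ^ (6 * (a + 1) * c) * (tm a c + 1) ^ 2
            ≤ 8 * 2 ^ (6 * (a + 1) * c) * (2 ^ (18 * a * c + 3)) ^ 2 :=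
              Nat.mul_le_mul_left _ (Nat.pow_le_pow_left h6 2)
          _ = _ := by
              rw [show (8 : ℕ) = 2 ^ 3 by norm_num, ← pow_mul, ← pow_add, ← pow_add]
              congr 1; ring
      have h8 : 8 ≤ 2 ^ (3 + 6 * (a + 1) * c + 2 * (18 * a * c + 3)) := by
        calc 8 = 2 ^ 3 := by norm_num
          _ ≤ _ := Nat.pow_le_pow_right (by norm_num) (by omega)
      calc 8 * 2 ^ (6 * (a + 1) * c) * (tm a c + 1) ^ 2 + 8
          ≤ 2 ^ (3 + 6 * (a + 1) * c + 2 * (18 * a * c + 3)) +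
            2 ^ (3 + 6 * (a + 1) * c + 2 * (18 * a * c + 3)) := add_le_add h7 h8
        _ = 2 ^ (3 + 6 * (a + 1) * c + 2 * (18 * a * c + 3) + 1) := by rw [pow_succ]; ring
        _ ≤ 2 ^ (54 * (a + 1) * c) := by
            apply Nat.pow_le_pow_right (by norm_num)
            nlinarith
    · rw [← mass_ofAbs w Φ o, h2, card_support_treePoly K hh]
      push_cast
      rfl
  · intro Φ hΦ o hco hN
    let inst : NormedField K := ofAbs w
    have hco' : ∀ φ : Fin (tt a c) → Fin (2 ^ (th c)) → Fin (tm a c),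
        1 ≤ ‖(Φ.value o).coeff (Multiset.toFinsupp (mon φ))‖ := by
      intro φ
      apply hco
      rw [MvPolynomial.mem_support_iff, coeff_treePoly K hh φ]
      exact one_ne_zero
    have hs := size_cond a c n Φ.N ha1 hc5 hn1 hlt hN
    have hlow := skew_lower a c ha1 (by omega) Φ hΦ o hco' hs
    have hlow' : ((tm a c : ℕ) : ℝ) ^ (tt a c * 2 ^ th c) * 2 ^ (tt a c / (6 * (a + 1) * c)) ≤
        6 * ((6 * (a + 1) * c : ℕ) : ℝ) * cost w Φ o := by
      rw [← mass_ofAbs w Φ o]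
      exact_mod_cast hlow
    have hnR : (1 : ℝ) ≤ n := by exact_mod_cast hn1
    have hx : (n : ℝ) ^ (1 - ε) ≤ (2 : ℝ) ^ (κ * (6 * (a + 1) * (c + 1))) := by
      calc (n : ℝ) ^ (1 - ε) ≤ (n : ℝ) ^ κ :=
            Real.rpow_le_rpow_of_exponent_le hnR hκ
        _ ≤ ((2 : ℝ) ^ (6 * (a + 1) * (c + 1))) ^ κ := by
            apply Real.rpow_le_rpow (by positivity) _ hκ0
            exact_mod_cast hlt.le
        _ = _ := by
            rw [← Real.rpow_natCast, ← Real.rpow_mul (by norm_num)]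
            congr 1
            push_cast; ring
    have h1 := hasym c hcn ((n : ℝ) ^ (1 - ε)) (by positivity) hx
    have hm0 : (0 : ℝ) < ((tm a c : ℕ) : ℝ) ^ (tt a c * 2 ^ th c) := by
      have : 0 < tm a c := by rw [tm]; positivity
      positivity
    rw [card_support_treePoly K hh]
    have hD0 : (0 : ℝ) < 6 * ((6 * (a + 1) * c : ℕ) : ℝ) := by
      have : 0 < 6 * (a + 1) * c := by positivity
      have : (0 : ℝ) < ((6 * (a + 1) * c : ℕ) : ℝ) := by exact_mod_cast this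
      positivity
    have h2 : 6 * ((6 * (a + 1) * c : ℕ) : ℝ) * ((2 : ℝ) ^ ((n : ℝ) ^ (1 - ε)) *
        ((tm a c ^ (tt a c * 2 ^ th c) : ℕ) : ℝ)) < 6 * ((6 * (a + 1) * c : ℕ) : ℝ) *
          cost w Φ o := by
      refine lt_of_lt_of_le ?_ hlow'
      push_cast at h1 ⊢
      calc 6 * (6 * ((a : ℝ) + 1) * c) * ((2 : ℝ) ^ ((n : ℝ) ^ (1 - ε)) *
          (tm a c : ℝ) ^ (tt a c * 2 ^ th c))
          = (tm a c : ℝ) ^ (tt a c * 2 ^ th c) *
            (6 * (6 * ((a : ℝ) + 1) * c) * (2 : ℝ) ^ ((n : ℝ) ^ (1 - ε))) := by ring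
        _ < (tm a c : ℝ) ^ (tt a c * 2 ^ th c) * 2 ^ (tt a c / (6 * (a + 1) * c)) :=
            mul_lt_mul_of_pos_left h1 hm0
    exact lt_of_mul_lt_mul_left h2 hD0.le

theorem result (ε : ℝ) (hε : 0 < ε) :
    ∃ (δ : ℝ) (n₀ : ℕ) (t h m : ℕ → ℕ), 0 < δ ∧
      ∀ n ≥ n₀, ∀ (K : Type u) [Field K] (w : AbsoluteValue K ℝ),
        Fintype.card (Var (t n) (h n) (m n)) ≤ n ^ 9 ∧
        (treePoly K (t n) (h n) (m n)).totalDegree ≤ n ∧
        (∀ μ, (treePoly K (t n) (h n) (m n)).coeff μ = 0 ∨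
          (treePoly K (t n) (h n) (m n)).coeff μ = 1) ∧
        (∃ (Φ : Circuit K (Var (t n) (h n) (m n))) (o : Fin Φ.N),
          Φ.value o = treePoly K (t n) (h n) (m n) ∧ Φ.N ≤ n ^ 9 ∧
          (∀ i c, Φ.node i = .const c → c = 0 ∨ c = 1) ∧
          cost w Φ o = (treePoly K (t n) (h n) (m n)).support.card) ∧
        (∀ Φ : Circuit K (Var (t n) (h n) (m n)), Φ.WeaklySkew → ∀ o : Fin Φ.N,
          (∀ μ ∈ (treePoly K (t n) (h n) (m n)).support, 1 ≤ w ((Φ.value o).coeff μ)) →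
          (Φ.N : ℝ) ≤ (n : ℝ) ^ (δ * Real.log n) →
          (2 : ℝ) ^ ((n : ℝ) ^ (1 - ε)) * (treePoly K (t n) (h n) (m n)).support.card <
            cost w Φ o) := by
  -- the exponents
  set κ : ℝ := max (1 - ε) 0 with hκ
  have hκ0 : 0 ≤ κ := le_max_right _ _
  have hκ1 : κ < 1 := max_lt (by linarith) (by norm_num)
  obtain ⟨a, ha⟩ := exists_nat_gt (1 / (1 - κ))
  have h1κ : 0 < 1 - κ := by linarith
  have ha0 : (0 : ℝ) < a := lt_trans (by positivity) ha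
  have ha1 : 1 ≤ a := by exact_mod_cast ha0
  have hκa : κ * ((a : ℝ) + 1) < a := by
    have h1 : 1 < a * (1 - κ) := by
      rw [div_lt_iff₀ h1κ] at ha
      exact ha
    nlinarith
  obtain ⟨c₀, hc₀, hasym⟩ := asym κ a hκ0 hκa
  refine ⟨1 / (36 * ((a : ℝ) + 1) ^ 2), 2 ^ (6 * (a + 1) * c₀), fun n => tt a (cc a n),
    fun n => th (cc a n), fun n => tm a (cc a n), by positivity, ?_⟩
  intro n hn K _ w
  have hn1 : 1 ≤ n := le_trans Nat.one_le_two_pow hn
  exact aux ε κ a c₀ (cc a n) n hκ0 (le_max_left _ _) ha1 hasym hn1 (le_cc a n c₀ hn)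
    (cc_le a n (by omega)) (lt_cc a n) (le_trans hc₀ (le_cc a n c₀ hn)) K w

end Pool.Agent.Results.MP_f18ce0_lc.SkewCancellation
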