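import Pool.Agent.H522R2.EqvDet
import Pool.Agent.H522R2.EqvSkew

/-!
VP versus VP_ws in the equivariant model: the polynomials of tensor networks on ternary trees have symmetric
arithmetic circuits of size `s = 3^(5d+9)`, but all equivariant determinantal representations, all symmetric
algebraic branching programs and all symmetric skew circuits have size `s^Ω(log s)`.
-/

namespace Pool.Agent.Results.MP_f18ce0_lc.SymmetricSeparation

open H522R2.Eqv

theorem result :
    (∀ (N : Net) (k p : ℕ) [Fact p.Prime], ¬ Good N k ∅ →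
      (∀ (V : Type) [Fintype V] [DecidableEq V] (B : ABP (N.Var p) V), B.value = N.poly p →
        (∀ g : N.E → (ZMod p)ˣ × ZMod p, B.SymmUnder (N.act g)) → (p - 1) ^ k ≤ Fintype.card V) ∧
      (∀ C : Circuit (N.Var p), C.Skew → C.val C.out = N.poly p →
        (∀ g : N.E → (ZMod p)ˣ × ZMod p, C.SymmUnder (N.act g)) →
          (p - 1) ^ k ≤ Fintype.card C.G + 1) ∧
      (∀ (m : ℕ) (D : DetRep (N.Var p) m), 0 < m → D.value = N.poly p →
        (∀ g : N.E → (ZMod p)ˣ × ZMod p, D.Respects (N.act g)) →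
          ((p - 1) / 2) ^ k ≤ m ^ 3 + 2)) ∧
    (∀ d : ℕ, ∃ (p : ℕ) (_ : Fact p.Prime), p ≤ 2 * 3 ^ (d + 1) ∧
      (∃ C : Circuit ((tree d).Var p), C.val C.out = (tree d).poly p ∧
        (∀ g : (tree d).E → (ZMod p)ˣ × ZMod p, C.SymmUnder ((tree d).act g)) ∧
        C.size ≤ 3 ^ (5 * d + 9)) ∧
      (∀ (V : Type) [Fintype V] [DecidableEq V] (B : ABP ((tree d).Var p) V),
        B.value = (tree d).poly p →
        (∀ g : (tree d).E → (ZMod p)ˣ × ZMod p, B.SymmUnder ((tree d).act g)) →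
          3 ^ (d ^ 2) ≤ Fintype.card V) ∧
      (∀ C : Circuit ((tree d).Var p), C.Skew → C.val C.out = (tree d).poly p →
        (∀ g : (tree d).E → (ZMod p)ˣ × ZMod p, C.SymmUnder ((tree d).act g)) →
          3 ^ (d ^ 2) ≤ Fintype.card C.G + 1) ∧
      (∀ (m : ℕ) (D : DetRep ((tree d).Var p) m), 0 < m → D.value = (tree d).poly p →
        (∀ g : (tree d).E → (ZMod p)ˣ × ZMod p, D.Respects ((tree d).act g)) →
          3 ^ (d ^ 2) ≤ m ^ 3 + 2)) := by
  have hA : ∀ (N : Net) (k p : ℕ) [Fact p.Prime], ¬ Good N k ∅ →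
      (∀ (V : Type) [Fintype V] [DecidableEq V] (B : ABP (N.Var p) V), B.value = N.poly p →
        (∀ g : N.E → (ZMod p)ˣ × ZMod p, B.SymmUnder (N.act g)) → (p - 1) ^ k ≤ Fintype.card V) ∧
      (∀ C : Circuit (N.Var p), C.Skew → C.val C.out = N.poly p →
        (∀ g : N.E → (ZMod p)ˣ × ZMod p, C.SymmUnder (N.act g)) →
          (p - 1) ^ k ≤ Fintype.card C.G + 1) ∧
      (∀ (m : ℕ) (D : DetRep (N.Var p) m), 0 < m → D.value = N.poly p →
        (∀ g : N.E → (ZMod p)ˣ × ZMod p, D.Respects (N.act g)) →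
          ((p - 1) / 2) ^ k ≤ m ^ 3 + 2) := by
    intro N k p _ hcut
    refine ⟨?_, ?_, ?_⟩
    · intro V _ _ B hval hB
      exact symmetric_lower N k hcut B hB hval
    · intro C hC hval hsym
      have h := symmetric_lower N k hcut C.toABP
        (fun g => toABP_symm C _ (act_bijective N g).1 (hsym g)) ((toABP_value C hC).trans hval)
      rw [Fintype.card_option] at h
      exact h
    · intro m D hm hval hD
      obtain ⟨m, rfl⟩ := Nat.exists_eq_succ_of_ne_zero (Nat.pos_iff_ne_zero.mp hm)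
      exact det_lower N k hcut D hD hval
  refine ⟨hA, ?_⟩
  intro d
  have h3 : 3 ^ (d + 1) ≠ 0 := by positivity
  obtain ⟨p, hp, hlt, hle⟩ := Nat.exists_prime_lt_and_le_two_mul (3 ^ (d + 1)) h3
  have : Fact p.Prime := ⟨hp⟩
  obtain ⟨h1, h2, h4⟩ := hA (tree d) d p (tree_not_good d)
  have hq : 3 ^ d ≤ (p - 1) / 2 := by
    have : 3 ^ (d + 1) = 3 * 3 ^ d := by ring
    have : 0 < 3 ^ d := by positivity
    omega
  have hq1 : 3 ^ d ≤ p - 1 := le_trans hq (Nat.div_le_self _ _)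
  have hpow : ∀ q : ℕ, 3 ^ d ≤ q → 3 ^ (d ^ 2) ≤ q ^ d := by
    intro q hq
    calc 3 ^ (d ^ 2) = (3 ^ d) ^ d := by rw [← pow_mul, pow_two]
      _ ≤ q ^ d := Nat.pow_le_pow_left hq d
  refine ⟨p, ⟨hp⟩, hle, ⟨treeCircuit d p, treeCircuit_val d, fun g => treeCircuit_symm d g, ?_⟩, ?_, ?_, ?_⟩
  · have hs := treeCircuit_size (p := p) d
    have hc := card_TW d
    have hp4 : p ^ 4 ≤ 16 * 3 ^ (4 * d + 4) := by
      calc p ^ 4 ≤ (2 * 3 ^ (d + 1)) ^ 4 := Nat.pow_le_pow_left hle 4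
        _ = 16 * 3 ^ (4 * d + 4) := by
          rw [mul_pow, ← pow_mul]; norm_num; ring
    calc (treeCircuit d p).size ≤ 10 * (Fintype.card (TW d) * p ^ 4) := hs
      _ = 5 * ((2 * Fintype.card (TW d)) * p ^ 4) := by ring
      _ ≤ 5 * (3 ^ (d + 1) * (16 * 3 ^ (4 * d + 4))) := by
        apply Nat.mul_le_mul_left
        apply Nat.mul_le_mul
        · omega
        · exact hp4
      _ = 80 * 3 ^ (5 * d + 5) := by
        have : 5 * d + 5 = (d + 1) + (4 * d + 4) := by ring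
        rw [this, pow_add 3 (d + 1)]
        ring
      _ ≤ 3 ^ 4 * 3 ^ (5 * d + 5) := Nat.mul_le_mul_right _ (by norm_num)
      _ = 3 ^ (5 * d + 9) := by rw [← pow_add]; congr 1; ring
  · intro V _ _ B hval hB
    exact le_trans (hpow _ hq1) (h1 V B hval hB)
  · intro C hC hval hsym
    exact le_trans (hpow _ hq1) (h2 C hC hval hsym)
  · intro m D hm hval hD
    exact le_trans (hpow _ hq) (h4 m D hm hval hD)

end Pool.Agent.Results.MP_f18ce0_lc.SymmetricSeparation
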